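import Pool.Agent.helper72.ODK.Spec

set_option autoImplicit false

namespace Pool.Agent.helper72.UP

open Finset

theorem BIW_exp (t : ℝ) (h0 : 0 ≤ t) (h1 : t ≤ 1 / 2) : Real.exp (-(2 * t)) ≤ 1 - t := by
  have h2 : 1 + 2 * t ≤ Real.exp (2 * t) := by
    have := Real.add_one_le_exp (2 * t)
    linarith
  rw [Real.exp_neg]
  have h3 : (Real.exp (2 * t))⁻¹ ≤ (1 + 2 * t)⁻¹ := by
    apply inv_anti₀ (by linarith) h2
  refine h3.trans ?_
  rw [inv_le_iff_one_le_mul₀ (by linarith)]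
  nlinarith

theorem BIW : BIW_stmt := by
  intro b y
  induction y with
  | zero =>
    intro _
    simp
  | succ y ih =>
    intro hy
    have ih2 := ih (by omega)
    set m := b / 2 with hm
    have hmy : m + y + 1 ≤ b := by omega
    have h1 : b.choose (m + (y + 1)) * (m + y + 1) = b.choose (m + y) * (b - (m + y)) := by
      have := Nat.choose_succ_right_eq b (m + y)
      exact this
    have h2 : (b.choose (m + (y + 1)) : ℝ) * ((m : ℝ) + y + 1) = b.choose (m + y) * ((b : ℝ) - (m + y)) := by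
      have h3 := congrArg (Nat.cast : ℕ → ℝ) h1
      rw [Nat.cast_mul, Nat.cast_mul, Nat.cast_sub (by omega)] at h3
      push_cast at h3
      exact h3
    have hpos : (0 : ℝ) < (m : ℝ) + y + 1 := by positivity
    have hbm : (2 * (m : ℝ)) ≤ b := by
      have : 2 * m ≤ b := by omega
      exact_mod_cast this
    have h4 : (b.choose (m + y) : ℝ) * (1 - (2 * (y : ℝ) + 1) / ((m : ℝ) + y + 1)) ≤ b.choose (m + (y + 1)) := by
      have h5 : (1 - (2 * (y : ℝ) + 1) / ((m : ℝ) + y + 1)) = ((m : ℝ) - y) / ((m : ℝ) + y + 1) := by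
        field_simp
        ring
      rw [h5, mul_div_assoc', div_le_iff₀ hpos, h2]
      apply mul_le_mul_of_nonneg_left _ (Nat.cast_nonneg _)
      linarith
    have h6 : Real.exp (-(2 * ((2 * (y : ℝ) + 1) / ((m : ℝ) + 1)))) ≤ 1 - (2 * (y : ℝ) + 1) / ((m : ℝ) + y + 1) := by
      have h7 : (2 * (y : ℝ) + 1) / ((m : ℝ) + y + 1) ≤ (2 * (y : ℝ) + 1) / ((m : ℝ) + 1) := by
        apply div_le_div_of_nonneg_left (by positivity) (by positivity)
        have : (0 : ℝ) ≤ y := Nat.cast_nonneg _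
        linarith
      have h8 : (2 * (y : ℝ) + 1) / ((m : ℝ) + 1) ≤ 1 / 2 := by
        rw [div_le_div_iff₀ (by positivity) (by norm_num)]
        have h9 : 4 * (y + 1) ≤ m + 1 := hy
        have h10 : (4 * ((y : ℝ) + 1)) ≤ m + 1 := by exact_mod_cast h9
        linarith
      have h11 := BIW_exp ((2 * (y : ℝ) + 1) / ((m : ℝ) + 1)) (by positivity) h8
      linarith
    have h12 : -(2 * ((y + 1 : ℕ) : ℝ) ^ 2 / ((m : ℝ) + 1)) = -(2 * (y : ℝ) ^ 2 / ((m : ℝ) + 1)) + -(2 * ((2 * (y : ℝ) + 1) / ((m : ℝ) + 1))) := by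
      push_cast
      field_simp
      ring
    rw [h12, Real.exp_add, ← mul_assoc]
    calc (b.choose m : ℝ) * Real.exp (-(2 * (y : ℝ) ^ 2 / ((m : ℝ) + 1))) * Real.exp (-(2 * ((2 * (y : ℝ) + 1) / ((m : ℝ) + 1))))
        ≤ b.choose (m + y) * Real.exp (-(2 * ((2 * (y : ℝ) + 1) / ((m : ℝ) + 1)))) :=
          mul_le_mul_of_nonneg_right ih2 (Real.exp_pos _).le
      _ ≤ b.choose (m + y) * (1 - (2 * (y : ℝ) + 1) / ((m : ℝ) + y + 1)) :=
          mul_le_mul_of_nonneg_left h6 (Nat.cast_nonneg _)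
      _ ≤ b.choose (m + (y + 1)) := h4

end Pool.Agent.helper72.UP
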